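import Mathlib

set_option autoImplicit false

namespace Pool.Agent.N385.HUDG

open UpperHalfPlane Real

/-- the hyperbolic sine of half of the distance -/
noncomputable def s (z w : ℍ) : ℝ := Real.sinh (dist z w / 2)

/-- the hyperbolic cosine of half of the distance -/
noncomputable def c (z w : ℍ) : ℝ := Real.cosh (dist z w / 2)

lemma s_nonneg (z w : ℍ) : 0 ≤ s z w := by
  unfold s
  rw [Real.sinh_nonneg_iff]
  positivity

lemma s_comm (z w : ℍ) : s z w = s w z := by
  unfold s; rw [dist_comm]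

lemma c_comm (z w : ℍ) : c z w = c w z := by
  unfold c; rw [dist_comm]

lemma c_pos (z w : ℍ) : 0 < c z w := Real.cosh_pos _

lemma c_sq (z w : ℍ) : c z w ^ 2 = 1 + s z w ^ 2 := by
  unfold c s
  rw [Real.cosh_sq]; ring

lemma s_eq (z w : ℍ) : s z w = dist (z : ℂ) w / (2 * √(z.im * w.im)) := sinh_half_dist z w

lemma s_le_iff (z w : ℍ) (r : ℝ) : s z w ≤ Real.sinh r ↔ dist z w ≤ 2 * r := by
  unfold s
  rw [Real.sinh_le_sinh]
  constructor <;> intro h <;> linarith

/-- Ptolemy's inequality in the hyperbolic plane. -/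
lemma ptolemy (a b c d : ℍ) : s a c * s b d ≤ s a b * s c d + s b c * s a d := by
  have h := EuclideanGeometry.mul_dist_le_mul_dist_add_mul_dist (a : ℂ) (b : ℂ) (c : ℂ) (d : ℂ)
  simp only [s_eq]
  have ha := a.im_pos
  have hb := b.im_pos
  have hc := c.im_pos
  have hd := d.im_pos
  simp only [Real.sqrt_mul ha.le, Real.sqrt_mul hb.le, Real.sqrt_mul hc.le]
  have ha' := Real.sqrt_pos.2 ha
  have hb' := Real.sqrt_pos.2 hb
  have hc' := Real.sqrt_pos.2 hc
  have hd' := Real.sqrt_pos.2 hd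
  generalize √a.im = A at *
  generalize √b.im = B at *
  generalize √c.im = C at *
  generalize √d.im = D at *
  rw [div_mul_div_comm, div_mul_div_comm, div_mul_div_comm,
    show 2 * (A * C) * (2 * (B * D)) = 4 * (A * B * C * D) by ring,
    show 2 * (A * B) * (2 * (C * D)) = 4 * (A * B * C * D) by ring,
    show 2 * (B * C) * (2 * (A * D)) = 4 * (A * B * C * D) by ring, ← add_div]
  gcongr

/-- the point `w` in the disc model centred at `x` -/
noncomputable def T (x w : ℍ) : ℂ := ((w : ℂ) - x) / ((w : ℂ) - (starRingEnd ℂ) x)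

lemma denom_ne (x w : ℍ) : (w : ℂ) - (starRingEnd ℂ) x ≠ 0 := by
  intro h
  have h1 := congrArg Complex.im h
  simp at h1
  have := x.im_pos
  have := w.im_pos
  linarith

lemma norm_T_sub (x z w : ℍ) : ‖T x z - T x w‖ * (c x z * c x w) = s z w := by
  have h1 := denom_ne x z
  have h2 := denom_ne x w
  have hx := x.im_pos
  have hz := z.im_pos
  have hw := w.im_pos
  have e1 : T x z - T x w = ((z : ℂ) - w) * ((x : ℂ) - (starRingEnd ℂ) x) /
      (((z : ℂ) - (starRingEnd ℂ) x) * ((w : ℂ) - (starRingEnd ℂ) x)) := by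
    unfold T
    field_simp
    ring
  have e2 : ‖(x : ℂ) - (starRingEnd ℂ) x‖ = 2 * x.im := by
    have : (x : ℂ) - (starRingEnd ℂ) (x : ℂ) = ((2 * x.im : ℝ) : ℂ) * Complex.I := by
      apply Complex.ext
      · simp
      · simp; ring
    rw [this, norm_mul, Complex.norm_I, mul_one, Complex.norm_real, Real.norm_of_nonneg (by positivity)]
  have c1 : c x z = ‖(z : ℂ) - (starRingEnd ℂ) x‖ / (2 * √(z.im * x.im)) := by
    rw [c_comm]
    unfold c
    rw [cosh_half_dist, dist_eq_norm]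
  have c2 : c x w = ‖(w : ℂ) - (starRingEnd ℂ) x‖ / (2 * √(w.im * x.im)) := by
    rw [c_comm]
    unfold c
    rw [cosh_half_dist, dist_eq_norm]
  rw [e1, norm_div, norm_mul, norm_mul, e2, c1, c2, s_eq, dist_eq_norm]
  have n1 := norm_pos_iff.2 h1
  have n2 := norm_pos_iff.2 h2
  rw [Real.sqrt_mul hz.le, Real.sqrt_mul hw.le, Real.sqrt_mul hz.le]
  have hx' := Real.sqrt_pos.2 hx
  have hz' := Real.sqrt_pos.2 hz
  have hw' := Real.sqrt_pos.2 hw
  have hxx : x.im = √x.im * √x.im := (Real.mul_self_sqrt hx.le).symm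
  rw [hxx, Real.sqrt_mul_self hx'.le]
  field_simp


/-- planar packing: points within `25 / 2` of the origin at mutual distances more than `1` -/
lemma packing {ι : Type*} (A : Finset ι) (u : ι → ℂ) (h1 : ∀ a ∈ A, ‖u a‖ ≤ 25 / 2)
    (h2 : ∀ a ∈ A, ∀ b ∈ A, a ≠ b → 1 < ‖u a - u b‖) : A.card ≤ 2601 := by
  classical
  by_contra hcon
  push Not at hcon
  let f : ι → ℤ × ℤ := fun a => (⌊2 * (u a).re⌋, ⌊2 * (u a).im⌋)
  have hmaps : ∀ a ∈ A, f a ∈ (Finset.Icc (-25 : ℤ) 25) ×ˢ (Finset.Icc (-25 : ℤ) 25) := by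
    intro a ha
    have h := h1 a ha
    have hre := (Complex.abs_re_le_norm (u a)).trans h
    have him := (Complex.abs_im_le_norm (u a)).trans h
    rw [abs_le] at hre him
    simp only [f, Finset.mem_product, Finset.mem_Icc]
    refine ⟨⟨?_, ?_⟩, ⟨?_, ?_⟩⟩
    · rw [Int.le_floor]; push_cast; linarith
    · have : (⌊2 * (u a).re⌋ : ℝ) ≤ 25 := (Int.floor_le _).trans (by linarith)
      exact_mod_cast this
    · rw [Int.le_floor]; push_cast; linarith
    · have : (⌊2 * (u a).im⌋ : ℝ) ≤ 25 := (Int.floor_le _).trans (by linarith)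
      exact_mod_cast this
  have hcard : ((Finset.Icc (-25 : ℤ) 25) ×ˢ (Finset.Icc (-25 : ℤ) 25)).card < A.card := by
    have e : (Finset.Icc (-25 : ℤ) 25).card = 51 := by rw [Int.card_Icc]; rfl
    rw [Finset.card_product, e]
    omega
  obtain ⟨a, ha, b, hb, hab, hf⟩ := Finset.exists_ne_map_eq_of_card_lt_of_maps_to hcard hmaps
  have h3 := h2 a ha b hb hab
  simp only [f, Prod.mk.injEq] at hf
  have hre := Int.abs_sub_lt_one_of_floor_eq_floor hf.1
  have him := Int.abs_sub_lt_one_of_floor_eq_floor hf.2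
  clear hf hcard hcon hmaps
  clear_value f
  rw [abs_lt] at hre him
  have hX : ((u a).re - (u b).re) ^ 2 ≤ 1 / 4 := by nlinarith
  have hY : ((u a).im - (u b).im) ^ 2 ≤ 1 / 4 := by nlinarith
  have h4 : ‖u a - u b‖ ^ 2 < 1 := by
    rw [← Complex.normSq_eq_norm_sq, Complex.normSq_apply, Complex.sub_re, Complex.sub_im]
    nlinarith
  have h5 : 1 < ‖u a - u b‖ ^ 2 := by nlinarith
  linarith

lemma one_sided {ι : Type*} (A : Finset ι) (S : ℝ) (hS : 0 < S) (x y : ℍ) (z : ι → ℍ)
    (hxy : S / (5 / 2) < s x y) (hxz : ∀ a ∈ A, s x (z a) ≤ S) (hyz : ∀ a ∈ A, s y (z a) ≤ S)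
    (hxz' : ∀ a ∈ A, S / 5 < s x (z a))
    (hzz : ∀ a ∈ A, ∀ b ∈ A, a ≠ b → S < s (z a) (z b)) : A.card ≤ 2601 := by
  -- `H = √(1 + S ^ 2)`
  obtain ⟨H, hH0, hH⟩ : ∃ H : ℝ, 0 < H ∧ H ^ 2 = 1 + S ^ 2 :=
    ⟨√(1 + S ^ 2), Real.sqrt_pos.2 (by positivity), Real.sq_sqrt (by positivity)⟩
  have hc1 : ∀ a ∈ A, c x (z a) ≤ H := by
    intro a ha
    have h := c_sq x (z a)
    have h0 := c_pos x (z a)
    have h1 := hxz a ha
    have h2 := s_nonneg x (z a)
    by_contra hcon
    push Not at hcon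
    nlinarith
  have hc2 : ∀ a ∈ A, H / 5 ≤ c x (z a) := by
    intro a ha
    have h := c_sq x (z a)
    have h0 := c_pos x (z a)
    have h1 := hxz' a ha
    have h2 := s_nonneg x (z a)
    by_contra hcon
    push Not at hcon
    have h3 : c x (z a) ^ 2 < (H / 5) ^ 2 := by
      apply pow_lt_pow_left₀ hcon h0.le (by norm_num)
    have h4 : (S / 5) ^ 2 < s x (z a) ^ 2 := by
      apply pow_lt_pow_left₀ h1 (by positivity) (by norm_num)
    rw [div_pow] at h3 h4
    nlinarith
  have hc3 : H / (5 / 2) ≤ c x y := by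
    have h := c_sq x y
    have h0 := c_pos x y
    by_contra hcon
    push Not at hcon
    have h3 : c x y ^ 2 < (H / (5 / 2)) ^ 2 := by
      apply pow_lt_pow_left₀ hcon h0.le (by norm_num)
    have h4 : (S / (5 / 2)) ^ 2 < s x y ^ 2 := by
      apply pow_lt_pow_left₀ hxy (by positivity) (by norm_num)
    rw [div_pow] at h3 h4
    nlinarith
  set D : ℝ := S / H ^ 2 with hD
  have hD0 : 0 < D := by positivity
  apply packing A (fun a => (T x (z a) - T x y) / (D : ℂ))
  · intro a ha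
    rw [norm_div, Complex.norm_real, Real.norm_of_nonneg hD0.le, div_le_iff₀ hD0]
    have h1 := norm_T_sub x (z a) y
    have h2 : s (z a) y ≤ S := by rw [s_comm]; exact hyz a ha
    have h3 : H / 5 * (H / (5 / 2)) ≤ c x (z a) * c x y :=
      mul_le_mul (hc2 a ha) hc3 (by positivity) (c_pos _ _).le
    have h4 : ‖T x (z a) - T x y‖ * (H / 5 * (H / (5 / 2))) ≤ S :=
      (mul_le_mul_of_nonneg_left h3 (norm_nonneg _)).trans (h1.trans_le h2)
    rw [hD, ← mul_div_assoc, le_div_iff₀ (by positivity)]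
    nlinarith
  · intro a ha b hb hab
    have e : (T x (z a) - T x y) / (D : ℂ) - (T x (z b) - T x y) / (D : ℂ) =
        (T x (z a) - T x (z b)) / (D : ℂ) := by ring
    rw [e, norm_div, Complex.norm_real, Real.norm_of_nonneg hD0.le, lt_div_iff₀ hD0, one_mul]
    have h1 := norm_T_sub x (z a) (z b)
    have h2 := hzz a ha b hb hab
    have h3 : c x (z a) * c x (z b) ≤ H * H :=
      mul_le_mul (hc1 a ha) (hc1 b hb) (c_pos _ _).le hH0.le
    have h4 : S < ‖T x (z a) - T x (z b)‖ * (H * H) := by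
      refine h2.trans_le ?_
      rw [← h1]
      exact mul_le_mul_of_nonneg_left h3 (norm_nonneg _)
    rw [hD, div_lt_iff₀ (by positivity), pow_two]
    exact h4

/-- Many independent common neighbours force two centres to be close. -/
lemma gadget {ι : Type*} [Fintype ι] (hι : 5203 ≤ Fintype.card ι) (S : ℝ) (hS : 0 < S) (x y : ℍ)
    (z : ι → ℍ) (hxz : ∀ a, s x (z a) ≤ S) (hyz : ∀ a, s y (z a) ≤ S)
    (hzz : ∀ a b, a ≠ b → S < s (z a) (z b)) : s x y ≤ S / (5 / 2) := by
  classical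
  by_contra hcon
  push Not at hcon
  have key : ∀ a, S / (5 / 2) < s x (z a) + s y (z a) := by
    intro a
    obtain ⟨b, hb⟩ : ∃ b, b ≠ a := by
      have : Nontrivial ι := Fintype.one_lt_card_iff_nontrivial.1 (by omega)
      exact exists_ne a
    have h1 := ptolemy x (z a) y (z b)
    have h2 := hzz a b hb.symm
    have h3 := hxz b
    have h4 := hyz b
    have h5 := s_nonneg x (z a)
    have h6 := s_nonneg y (z a)
    have h7 : S / (5 / 2) * S < s x y * s (z a) (z b) :=
      mul_lt_mul'' hcon h2 (by positivity) hS.le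
    have h8 : s x (z a) * s y (z b) ≤ s x (z a) * S := mul_le_mul_of_nonneg_left h4 h5
    have h9 : s (z a) y * s x (z b) ≤ s y (z a) * S := by
      rw [s_comm (z a) y]
      exact mul_le_mul_of_nonneg_left h3 h6
    have h10 : S / (5 / 2) * S < (s x (z a) + s y (z a)) * S := by nlinarith
    exact lt_of_mul_lt_mul_right h10 hS.le
  have hx := one_sided (Finset.univ.filter fun a => S / 5 < s x (z a)) S hS x y z hcon
    (fun a _ => hxz a) (fun a _ => hyz a) (fun a ha => (Finset.mem_filter.1 ha).2)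
    (fun a _ b _ hab => hzz a b hab)
  have hy := one_sided (Finset.univ.filter fun a => S / 5 < s y (z a)) S hS y x z
    (by rw [s_comm]; exact hcon)
    (fun a _ => hyz a) (fun a _ => hxz a) (fun a ha => (Finset.mem_filter.1 ha).2)
    (fun a _ b _ hab => hzz a b hab)
  have hunion : (Finset.univ : Finset ι) ⊆ (Finset.univ.filter fun a => S / 5 < s x (z a)) ∪
      (Finset.univ.filter fun a => S / 5 < s y (z a)) := by
    intro a _
    rw [Finset.mem_union, Finset.mem_filter, Finset.mem_filter]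
    by_contra h
    push Not at h
    have h1 := h.1 (Finset.mem_univ _)
    have h2 := h.2 (Finset.mem_univ _)
    have := key a
    linarith
  have h := (Finset.card_le_card hunion).trans (Finset.card_union_le _ _)
  rw [Finset.card_univ] at h
  omega

/-- A path of centres with forced overlaps is long. -/
lemma chain (S : ℝ) (hS : 0 < S) (t : ℕ) (p : ℕ → ℍ)
    (h1 : ∀ i, i + 1 ≤ t → s (p i) (p (i + 1)) ≤ S / (5 / 2))
    (h2 : ∀ i, i + 2 ≤ t → S < s (p i) (p (i + 2))) :
    ∀ j, j + 2 ≤ t → 2 ^ j * (4 / 5 * S) ≤ s (p 0) (p (j + 2)) - s (p 0) (p (j + 1)) / 2 := by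
  intro j
  induction j with
  | zero =>
    intro ht
    have a1 := h1 0 (by omega)
    have a2 := h2 0 ht
    simp only [zero_add] at a1 a2 ⊢
    rw [pow_zero, one_mul]
    linarith
  | succ j ih =>
    intro ht
    have a1 := ih (by omega)
    have a2 := h1 (j + 1) (by omega)
    have a3 := h1 (j + 2) (by omega)
    have a4 := h2 (j + 1) (by omega)
    have a5 := ptolemy (p 0) (p (j + 1)) (p (j + 2)) (p (j + 3))
    simp only [add_assoc] at a2 a3 a4 a5 ⊢
    norm_num at a2 a3 a4 a5 ⊢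
    have n1 := s_nonneg (p 0) (p (j + 1))
    have n2 := s_nonneg (p 0) (p (j + 2))
    have n3 := s_nonneg (p 0) (p (j + 3))
    have b1 : s (p 0) (p (j + 2)) * S ≤ s (p 0) (p (j + 2)) * s (p (j + 1)) (p (j + 3)) :=
      mul_le_mul_of_nonneg_left a4.le n2
    have b2 : s (p 0) (p (j + 1)) * s (p (j + 2)) (p (j + 3)) ≤ s (p 0) (p (j + 1)) * (S / (5 / 2)) :=
      mul_le_mul_of_nonneg_left a3 n1
    have b3 : s (p (j + 1)) (p (j + 2)) * s (p 0) (p (j + 3)) ≤ (S / (5 / 2)) * s (p 0) (p (j + 3)) :=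
      mul_le_mul_of_nonneg_right a2 n3
    have b4 : s (p 0) (p (j + 2)) * S ≤
        (s (p 0) (p (j + 1)) + s (p 0) (p (j + 3))) / (5 / 2) * S := by
      calc _ ≤ _ := b1
        _ ≤ _ := a5
        _ ≤ _ := add_le_add b2 b3
        _ = _ := by ring
    have b5 := le_of_mul_le_mul_right b4 hS
    rw [pow_succ]
    nlinarith

end Pool.Agent.N385.HUDG
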