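import Pool.Agent.N385.HUDG.Place

set_option autoImplicit false

namespace Pool.Agent.N385.HUDG

open UpperHalfPlane Real

/-- the position of the vertex number `k` -/
noncomputable def pos (η : ℝ) (t : ℕ) (k : ℕ) : ℍ :=
  if k = 0 then C 104060 t
  else if (k - 1) % 5204 = 0 then P 104060 η ((k - 1) / 5204)
  else Z 5203 104060 η ((k - 1) / 5204) (((k - 1) % 5204 - 1 : ℕ) : ℝ)

lemma pos_zero (η : ℝ) (t : ℕ) : pos η t 0 = C 104060 t := by simp [pos]

lemma pos_P (η : ℝ) (t i : ℕ) : pos η t (1 + 5204 * i) = P 104060 η i := by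
  have h1 : (1 + 5204 * i - 1) % 5204 = 0 := by omega
  have h2 : (1 + 5204 * i - 1) / 5204 = i := by omega
  unfold pos
  rw [if_neg (by omega), if_pos h1, h2]

lemma pos_Z (η : ℝ) (t i a : ℕ) (ha : a < 5203) :
    pos η t (2 + 5204 * i + a) = Z 5203 104060 η i (a : ℝ) := by
  have h1 : (2 + 5204 * i + a - 1) % 5204 = a + 1 := by omega
  have h2 : (2 + 5204 * i + a - 1) / 5204 = i := by omega
  unfold pos
  rw [if_neg (by omega), if_neg (by omega), h2, h1]
  simp

/-- the number `t` for `n` vertices -/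
def tt (n : ℕ) : ℕ := (n - 2) / 5204

/-- the scale -/
noncomputable def eta (n : ℕ) : ℝ := 1 / (104060 : ℝ) ^ tt n

/-- the radius -/
noncomputable def rad (n : ℕ) : ℝ := Real.arsinh (√(100000 * 5203 ^ 4 / (4 * eta n ^ 2)))

lemma eta_pos (n : ℕ) : 0 < eta n := by unfold eta; positivity

lemma eta_le (n : ℕ) : eta n ≤ 1 := by
  unfold eta
  rw [div_le_one (by positivity)]
  exact one_le_pow₀ (by norm_num)

lemma sinh_rad (n : ℕ) : Real.sinh (rad n) = √(100000 * 5203 ^ 4 / (4 * eta n ^ 2)) := by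
  unfold rad; rw [Real.sinh_arsinh]

lemma rad_pos (n : ℕ) : 0 < rad n := by
  have := eta_pos n
  unfold rad
  rw [Real.arsinh_pos_iff]
  positivity

lemma near {n : ℕ} {z w : ℍ} (h : s z w ^ 2 ≤ 100000 * 5203 ^ 4 / (4 * eta n ^ 2)) :
    dist z w ≤ 2 * rad n := by
  rw [← s_le_iff, sinh_rad]
  exact Real.le_sqrt_of_sq_le h

lemma far {n : ℕ} {z w : ℍ} (h : 100000 * 5203 ^ 4 / (4 * eta n ^ 2) < s z w ^ 2) :
    ¬ dist z w ≤ 2 * rad n := by
  rw [← s_le_iff, sinh_rad, not_le]
  have := eta_pos n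
  rw [Real.sqrt_lt (by positivity) (s_nonneg z w)]
  exact h

/-- The lower bound for the radius of every representation of the graph given by `pos`. -/
lemma bound (n : ℕ) (ht : 2 ≤ tt n) (r : ℝ) (hr : 0 < r) (q : Fin n → ℍ)
    (hq : ∀ u v : Fin n, u ≠ v → (dist (pos (eta n) (tt n) u) (pos (eta n) (tt n) v) ≤ 2 * rad n ↔
      dist (q u) (q v) ≤ 2 * r)) :
    ((tt n : ℝ) - 4) * Real.log 2 ≤ r := by
  have hn : 2 + 5204 * tt n ≤ n := by unfold tt at *; omega
  set t := tt n with htd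
  have hη := eta_pos n
  have hη1 := eta_le n
  have hS : 0 < Real.sinh r := Real.sinh_pos_iff.2 hr
  -- extension to all natural numbers
  let Q : ℕ → ℍ := fun k => if h : k < n then q ⟨k, h⟩ else UpperHalfPlane.I
  have hQ : ∀ k l : ℕ, k < n → l < n → k ≠ l →
      (dist (pos (eta n) t k) (pos (eta n) t l) ≤ 2 * rad n ↔ s (Q k) (Q l) ≤ Real.sinh r) := by
    intro k l hk hl hkl
    have := hq ⟨k, hk⟩ ⟨l, hl⟩ (by intro h; exact hkl (Fin.mk.inj_iff.1 h))
    simp only [Q, dif_pos hk, dif_pos hl]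
    rw [s_le_iff]
    exact this
  have near' : ∀ k l : ℕ, k < n → l < n → k ≠ l →
      s (pos (eta n) t k) (pos (eta n) t l) ^ 2 ≤ 100000 * 5203 ^ 4 / (4 * eta n ^ 2) →
      s (Q k) (Q l) ≤ Real.sinh r := fun k l hk hl hkl h => (hQ k l hk hl hkl).1 (near h)
  have far' : ∀ k l : ℕ, k < n → l < n → k ≠ l →
      100000 * 5203 ^ 4 / (4 * eta n ^ 2) < s (pos (eta n) t k) (pos (eta n) t l) ^ 2 →
      Real.sinh r < s (Q k) (Q l) := by
    intro k l hk hl hkl h
    by_contra hcon
    push Not at hcon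
    exact far h ((hQ k l hk hl hkl).2 hcon)
  let p : ℕ → ℍ := fun i => Q (1 + 5204 * i)
  have h1 : ∀ i, i + 1 ≤ t → s (p i) (p (i + 1)) ≤ Real.sinh r / (5 / 2) := by
    intro i hi
    apply gadget (ι := Fin 5203) (by simp) (Real.sinh r) hS (p i) (p (i + 1))
      (fun a => Q (2 + 5204 * i + a))
    · intro a
      have ha := a.2
      apply near' _ _ (by omega) (by omega) (by omega)
      rw [pos_P, pos_Z _ _ _ _ ha]
      exact ZP (by norm_num) (by norm_num) hη hη1 i _ (by positivity)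
        (by exact_mod_cast ha.le)
    · intro a
      have ha := a.2
      apply near' _ _ (by omega) (by omega) (by omega)
      rw [pos_P, pos_Z _ _ _ _ ha]
      exact ZP' (by norm_num) (by norm_num) hη hη1 i _ (by positivity)
        (by exact_mod_cast ha.le)
    · intro a b hab
      have ha := a.2
      have hb := b.2
      have hab' : (a : ℕ) ≠ b := fun h => hab (Fin.ext h)
      apply far' _ _ (by omega) (by omega) (by omega)
      rw [pos_Z _ _ _ _ ha, pos_Z _ _ _ _ hb]
      apply ZZ (by norm_num) (by norm_num) hη i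
      have h0 : ((a : ℕ) : ℤ) - ((b : ℕ) : ℤ) ≠ 0 := by omega
      have h1 := Int.one_le_abs h0
      have h2 : ((1 : ℤ) : ℝ) ≤ ((|((a : ℕ) : ℤ) - ((b : ℕ) : ℤ)| : ℤ) : ℝ) := by exact_mod_cast h1
      push_cast at h2
      exact h2
  have h2 : ∀ i, i + 2 ≤ t → Real.sinh r < s (p i) (p (i + 2)) := by
    intro i hi
    apply far' _ _ (by omega) (by omega) (by omega)
    rw [pos_P, pos_P]
    exact PP (by norm_num) (by norm_num) hη i
  have h3 := chain (Real.sinh r) hS t p h1 h2 (t - 2) (by omega)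
  rw [show t - 2 + 2 = t by omega] at h3
  have h4 : 0 ≤ s (p 0) (p (t - 2 + 1)) := s_nonneg _ _
  have h5 : s (Q 0) (p 0) ≤ Real.sinh r := by
    apply near' _ _ (by omega) (by omega) (by omega)
    rw [pos_zero, pos_P]
    exact CP0 (by norm_num) (by norm_num) t rfl
  have h6 : s (Q 0) (p t) ≤ Real.sinh r := by
    apply near' _ _ (by omega) (by omega) (by omega)
    rw [pos_zero, pos_P]
    exact CPt (by norm_num) (by norm_num) t rfl
  rw [s_le_iff] at h5 h6
  have h7 : s (p 0) (p t) ≤ Real.sinh (2 * r) := by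
    rw [s_le_iff]
    have := dist_triangle_left (p 0) (p t) (Q 0)
    linarith
  rw [Real.sinh_two_mul] at h7
  have h8 : Real.cosh r ≤ Real.exp r := by
    rw [← Real.cosh_add_sinh]
    linarith
  have h9 : (2 : ℝ) ^ (t - 2) * (4 / 5) ≤ 2 * Real.cosh r := by
    have : (2 : ℝ) ^ (t - 2) * (4 / 5) * Real.sinh r ≤ 2 * Real.cosh r * Real.sinh r := by
      nlinarith
    exact le_of_mul_le_mul_right this hS
  have h10 : (2 : ℝ) ^ t ≤ 16 * Real.exp r := by
    have e : (2 : ℝ) ^ t = 4 * 2 ^ (t - 2) := by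
      rw [show (4 : ℝ) = 2 ^ 2 by norm_num, ← pow_add]; congr 1; omega
    rw [e]
    have := Real.exp_pos r
    linarith
  have h11 := Real.log_le_log (by positivity) h10
  rw [Real.log_pow, Real.log_mul (by norm_num) (Real.exp_pos r).ne', Real.log_exp,
    show (16 : ℝ) = 2 ^ 4 by norm_num, Real.log_pow] at h11
  push_cast at h11
  linarith

end Pool.Agent.N385.HUDG
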