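import Pool.Agent.N385.HUDG.Basic

set_option autoImplicit false

namespace Pool.Agent.N385.HUDG

open UpperHalfPlane Real

/-- the point `x + y i` for `y > 0` (and some other point for `y ≤ 0`) -/
noncomputable def pt (x y : ℝ) : ℍ :=
  if h : 0 < y then ⟨⟨x, y⟩, h⟩ else ⟨Complex.I, by simp⟩

lemma s_sq_pt {x y x' y' : ℝ} (hy : 0 < y) (hy' : 0 < y') :
    s (pt x y) (pt x' y') ^ 2 = ((x - x') ^ 2 + (y - y') ^ 2) / (4 * (y * y')) := by
  rw [s_eq, div_pow, mul_pow]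
  unfold pt
  rw [dif_pos hy, dif_pos hy']
  have e1 : ((⟨⟨x, y⟩, hy⟩ : ℍ) : ℂ) = ⟨x, y⟩ := rfl
  have e2 : ((⟨⟨x', y'⟩, hy'⟩ : ℍ) : ℂ) = ⟨x', y'⟩ := rfl
  have e3 : (⟨⟨x, y⟩, hy⟩ : ℍ).im = y := rfl
  have e4 : (⟨⟨x', y'⟩, hy'⟩ : ℍ).im = y' := rfl
  rw [e1, e2, e3, e4, Real.sq_sqrt (by positivity), Complex.dist_eq, ← Complex.normSq_eq_norm_sq,
    Complex.normSq_apply]
  congr 1
  · simp; ring
  · ring

section place

variable (m h η : ℝ)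

/-- the path centres -/
noncomputable def P (i : ℕ) : ℍ := pt (h ^ (2 * i)) (η * h ^ (2 * i))

/-- the common neighbours of `P i` and `P (i + 1)` -/
noncomputable def Z (i : ℕ) (a : ℝ) : ℍ :=
  pt (-(h ^ (2 * i + 1) * (1 + a / m))) (η / (400 * m ^ 3) * h ^ (2 * i + 1))

/-- the centre -/
noncomputable def C (t : ℕ) : ℍ := pt 0 (h ^ t)

variable {m h η}

lemma PP (hm : 1 ≤ m) (hh : h = 20 * m) (hη : 0 < η) (i : ℕ) :
    100000 * m ^ 4 / (4 * η ^ 2) < s (P h η i) (P h η (i + 2)) ^ 2 := by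
  have hh0 : 0 < h := by rw [hh]; linarith
  unfold P
  rw [s_sq_pt (by positivity) (by positivity)]
  have e : h ^ (2 * (i + 2)) = h ^ 4 * h ^ (2 * i) := by rw [← pow_add]; congr 1; ring
  rw [e]
  have hX : 0 < h ^ (2 * i) := by positivity
  generalize h ^ (2 * i) = X at *
  have e2 : ((X - h ^ 4 * X) ^ 2 + (η * X - η * (h ^ 4 * X)) ^ 2) / (4 * (η * X * (η * (h ^ 4 * X)))) =
      ((h ^ 4 - 1) ^ 2 * (1 + η ^ 2) / h ^ 4) / (4 * η ^ 2) := by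
    field_simp
    ring
  rw [e2]
  apply div_lt_div_of_pos_right _ (by positivity)
  rw [lt_div_iff₀ (by positivity)]
  have h1 : 20 ≤ h := by rw [hh]; linarith
  have hm2 : m ^ 2 = h ^ 2 / 400 := by rw [hh]; ring
  have hm4 : m ^ 4 = h ^ 4 / 160000 := by rw [hh]; ring
  rw [hm4]
  have h2 : 400 ≤ h ^ 2 := by nlinarith
  have h4 : (h ^ 2 * (h ^ 2 - 1)) ^ 2 ≤ (h ^ 4 - 1) ^ 2 := by
    apply pow_le_pow_left₀
    · nlinarith
    · nlinarith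
  have h5 : (h ^ 2 * (h ^ 2 - 1)) ^ 2 ≤ (h ^ 4 - 1) ^ 2 * (1 + η ^ 2) := by
    refine h4.trans ?_
    apply le_mul_of_one_le_right (by positivity)
    nlinarith
  refine lt_of_lt_of_le ?_ h5
  have h6 : (5 / 8 : ℝ) * h ^ 4 < (h ^ 2 - 1) ^ 2 := by nlinarith
  have h7 : 0 < h ^ 4 := by positivity
  calc 100000 * (h ^ 4 / 160000) * h ^ 4 = (5 / 8 * h ^ 4) * h ^ 4 := by ring
    _ < (h ^ 2 - 1) ^ 2 * h ^ 4 := mul_lt_mul_of_pos_right h6 h7
    _ = _ := by ring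

lemma ZZ (hm : 1 ≤ m) (hh : h = 20 * m) (hη : 0 < η) (i : ℕ) (a b : ℝ) (hab : 1 ≤ |a - b|) :
    100000 * m ^ 4 / (4 * η ^ 2) < s (Z m h η i a) (Z m h η i b) ^ 2 := by
  have hh0 : 0 < h := by rw [hh]; linarith
  have hm0 : 0 < m := by linarith
  unfold Z
  rw [s_sq_pt (by positivity) (by positivity)]
  have hX : 0 < h ^ (2 * i + 1) := by positivity
  generalize h ^ (2 * i + 1) = X at *
  have e2 : ((-(X * (1 + a / m)) - -(X * (1 + b / m))) ^ 2 + (η / (400 * m ^ 3) * X - η / (400 * m ^ 3) * X) ^ 2) /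
      (4 * (η / (400 * m ^ 3) * X * (η / (400 * m ^ 3) * X))) =
      ((a - b) ^ 2 * (160000 * m ^ 4)) / (4 * η ^ 2) := by
    field_simp
    ring
  rw [e2]
  apply div_lt_div_of_pos_right _ (by positivity)
  have h1 : 1 ≤ (a - b) ^ 2 := by
    rw [← sq_abs]; nlinarith
  have h2 : 0 < m ^ 4 := by positivity
  nlinarith

lemma ZP (hm : 1 ≤ m) (hh : h = 20 * m) (hη : 0 < η) (hη1 : η ≤ 1) (i : ℕ) (a : ℝ) (ha0 : 0 ≤ a)
    (ha : a ≤ m) :
    s (P h η i) (Z m h η i a) ^ 2 ≤ 100000 * m ^ 4 / (4 * η ^ 2) := by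
  have hh0 : 0 < h := by rw [hh]; linarith
  have hm0 : 0 < m := by linarith
  unfold Z P
  rw [s_sq_pt (by positivity) (by positivity)]
  have e : h ^ (2 * i + 1) = h * h ^ (2 * i) := by rw [pow_succ]; ring
  rw [e]
  have hX : 0 < h ^ (2 * i) := by positivity
  generalize h ^ (2 * i) = X at *
  have e2 : ((X - -(h * X * (1 + a / m))) ^ 2 + (η * X - η / (400 * m ^ 3) * (h * X)) ^ 2) /
      (4 * (η * X * (η / (400 * m ^ 3) * (h * X)))) =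
      ((((1 + h * (1 + a / m)) ^ 2 + η ^ 2 * (1 - h / (400 * m ^ 3)) ^ 2) * (400 * m ^ 3)) / h) / (4 * η ^ 2) := by
    field_simp
    ring
  rw [e2]
  apply div_le_div_of_nonneg_right _ (by positivity)
  rw [div_le_iff₀ hh0]
  have h1 : 0 ≤ a / m := by positivity
  have h2 : a / m ≤ 1 := by rw [div_le_one hm0]; exact ha
  generalize a / m = α at *
  have h20 : 20 ≤ h := by rw [hh]; linarith
  have h3 : (1 + h * (1 + α)) ^ 2 ≤ (1 + h * 2) ^ 2 := by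
    apply pow_le_pow_left₀ (by positivity)
    nlinarith
  have h4 : 0 ≤ 1 - h / (400 * m ^ 3) := by
    rw [sub_nonneg, div_le_one (by positivity), hh]
    nlinarith [pow_pos hm0 2, mul_le_mul hm hm (by norm_num) (by linarith)]
  have h5 : 1 - h / (400 * m ^ 3) ≤ 1 := by
    have : 0 ≤ h / (400 * m ^ 3) := by positivity
    linarith
  have h6 : η ^ 2 * (1 - h / (400 * m ^ 3)) ^ 2 ≤ 1 := by
    have a1 : η ^ 2 ≤ 1 := by nlinarith
    have a2 : (1 - h / (400 * m ^ 3)) ^ 2 ≤ 1 := by nlinarith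
    have a3 : 0 ≤ (1 - h / (400 * m ^ 3)) ^ 2 := by positivity
    nlinarith [sq_nonneg η]
  have h7 : (1 + h * (1 + α)) ^ 2 + η ^ 2 * (1 - h / (400 * m ^ 3)) ^ 2 ≤ 5 * h ^ 2 := by
    nlinarith
  calc _ ≤ (5 * h ^ 2) * (400 * m ^ 3) := mul_le_mul_of_nonneg_right h7 (by positivity)
    _ = 800000 * m ^ 5 := by rw [hh]; ring
    _ ≤ 2000000 * m ^ 5 := by nlinarith [pow_pos hm0 5]
    _ = 100000 * m ^ 4 * h := by rw [hh]; ring

lemma ZP' (hm : 1 ≤ m) (hh : h = 20 * m) (hη : 0 < η) (hη1 : η ≤ 1) (i : ℕ) (a : ℝ) (ha0 : 0 ≤ a)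
    (ha : a ≤ m) :
    s (P h η (i + 1)) (Z m h η i a) ^ 2 ≤ 100000 * m ^ 4 / (4 * η ^ 2) := by
  have hh0 : 0 < h := by rw [hh]; linarith
  have hm0 : 0 < m := by linarith
  unfold Z P
  rw [s_sq_pt (by positivity) (by positivity)]
  have e : h ^ (2 * i + 1) = h * h ^ (2 * i) := by rw [pow_succ]; ring
  have e' : h ^ (2 * (i + 1)) = h ^ 2 * h ^ (2 * i) := by rw [← pow_add]; congr 1; ring
  rw [e, e']
  have hX : 0 < h ^ (2 * i) := by positivity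
  generalize h ^ (2 * i) = X at *
  have e2 : ((h ^ 2 * X - -(h * X * (1 + a / m))) ^ 2 + (η * (h ^ 2 * X) - η / (400 * m ^ 3) * (h * X)) ^ 2) /
      (4 * (η * (h ^ 2 * X) * (η / (400 * m ^ 3) * (h * X)))) =
      ((((h + (1 + a / m)) ^ 2 + η ^ 2 * (h - 1 / (400 * m ^ 3)) ^ 2) * (400 * m ^ 3)) / h) / (4 * η ^ 2) := by
    field_simp
    ring
  rw [e2]
  apply div_le_div_of_nonneg_right _ (by positivity)
  rw [div_le_iff₀ hh0]
  have h1 : 0 ≤ a / m := by positivity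
  have h2 : a / m ≤ 1 := by rw [div_le_one hm0]; exact ha
  generalize a / m = α at *
  have h20 : 20 ≤ h := by rw [hh]; linarith
  have h3 : (h + (1 + α)) ^ 2 ≤ (h + 2) ^ 2 := by
    apply pow_le_pow_left₀ (by positivity)
    linarith
  have h3' : (h + 2) ^ 2 ≤ 2 * h ^ 2 := by nlinarith
  have h4 : 0 ≤ h - 1 / (400 * m ^ 3) := by
    have : 1 / (400 * m ^ 3) ≤ 1 := by
      rw [div_le_one (by positivity)]
      have : 1 ≤ m ^ 3 := one_le_pow₀ hm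
      linarith
    linarith
  have h5 : h - 1 / (400 * m ^ 3) ≤ h := by
    have : 0 ≤ 1 / (400 * m ^ 3) := by positivity
    linarith
  have h6 : η ^ 2 * (h - 1 / (400 * m ^ 3)) ^ 2 ≤ h ^ 2 := by
    have a1 : η ^ 2 ≤ 1 := by nlinarith
    have a2 : (h - 1 / (400 * m ^ 3)) ^ 2 ≤ h ^ 2 := by nlinarith
    have a3 : 0 ≤ (h - 1 / (400 * m ^ 3)) ^ 2 := by positivity
    nlinarith [sq_nonneg η]
  have h7 : (h + (1 + α)) ^ 2 + η ^ 2 * (h - 1 / (400 * m ^ 3)) ^ 2 ≤ 3 * h ^ 2 := by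
    linarith
  calc _ ≤ (3 * h ^ 2) * (400 * m ^ 3) := mul_le_mul_of_nonneg_right h7 (by positivity)
    _ = 480000 * m ^ 5 := by rw [hh]; ring
    _ ≤ 2000000 * m ^ 5 := by nlinarith [pow_pos hm0 5]
    _ = 100000 * m ^ 4 * h := by rw [hh]; ring

lemma CP0 (hm : 1 ≤ m) (hh : h = 20 * m) (t : ℕ) (hη : η = 1 / h ^ t) :
    s (C h t) (P h η 0) ^ 2 ≤ 100000 * m ^ 4 / (4 * η ^ 2) := by
  have hh0 : 0 < h := by rw [hh]; linarith
  have hm0 : 0 < m := by linarith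
  unfold C P
  have h20 : 1 ≤ h := by rw [hh]; linarith
  have hY : 1 ≤ h ^ t := one_le_pow₀ h20
  rw [hη]
  generalize h ^ t = Y at *
  have hY0 : 0 < Y := by linarith
  rw [s_sq_pt (by positivity) (by positivity)]
  simp only [mul_zero, pow_zero, mul_one, zero_sub]
  have e1 : ((-1 : ℝ) ^ 2 + (Y - 1 / Y) ^ 2) / (4 * (Y * (1 / Y))) = (1 + (Y - 1 / Y) ^ 2) / 4 := by
    field_simp
  have e2 : 100000 * m ^ 4 / (4 * (1 / Y) ^ 2) = 100000 * m ^ 4 * Y ^ 2 / 4 := by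
    field_simp
  rw [e1, e2]
  apply div_le_div_of_nonneg_right _ (by norm_num)
  have h1 : 0 ≤ Y - 1 / Y := by
    rw [sub_nonneg, div_le_iff₀ hY0]; nlinarith
  have h2 : Y - 1 / Y ≤ Y := by
    have : 0 ≤ 1 / Y := by positivity
    linarith
  have h3 : (Y - 1 / Y) ^ 2 ≤ Y ^ 2 := by nlinarith
  have h4 : 1 ≤ m ^ 4 := one_le_pow₀ hm
  have h5 : 1 ≤ Y ^ 2 := one_le_pow₀ hY
  nlinarith [mul_le_mul h4 le_rfl (by positivity : 0 ≤ Y ^ 2) (by positivity : (0:ℝ) ≤ m ^ 4)]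

lemma CPt (hm : 1 ≤ m) (hh : h = 20 * m) (t : ℕ) (hη : η = 1 / h ^ t) :
    s (C h t) (P h η t) ^ 2 ≤ 100000 * m ^ 4 / (4 * η ^ 2) := by
  have hh0 : 0 < h := by rw [hh]; linarith
  have hm0 : 0 < m := by linarith
  unfold C P
  have h20 : 1 ≤ h := by rw [hh]; linarith
  have hY : 1 ≤ h ^ t := one_le_pow₀ h20
  have e : h ^ (2 * t) = h ^ t * h ^ t := by rw [← pow_add]; congr 1; ring
  rw [hη, e]
  generalize h ^ t = Y at *
  have hY0 : 0 < Y := by linarith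
  rw [s_sq_pt (by positivity) (by positivity)]
  have e1 : ((0 - Y * Y) ^ 2 + (Y - 1 / Y * (Y * Y)) ^ 2) / (4 * (Y * (1 / Y * (Y * Y)))) = Y ^ 2 / 4 := by
    field_simp
    ring
  have e2 : 100000 * m ^ 4 / (4 * (1 / Y) ^ 2) = 100000 * m ^ 4 * Y ^ 2 / 4 := by
    field_simp
  rw [e1, e2]
  apply div_le_div_of_nonneg_right _ (by norm_num)
  have h4 : 1 ≤ m ^ 4 := one_le_pow₀ hm
  have h5 : 0 < Y ^ 2 := by positivity
  nlinarith

end place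

end Pool.Agent.N385.HUDG
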